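import Mathlib

set_option autoImplicit false

open Finset

namespace Pool.Agent.Helper27_Sid

/-- `A` is a Sidon set (a `B_2` set): the sums `a + b` of two elements of `A`, equal elements
allowed, determine the unordered pair `{a, b}`. -/
def IsSidon {G : Type*} [AddCommGroup G] (A : Finset G) : Prop :=
  ∀ a ∈ A, ∀ b ∈ A, ∀ c ∈ A, ∀ d ∈ A, a + b = c + d → (a = c ∧ b = d) ∨ (a = d ∧ b = c)

/-- `G` attains the bound with `m` elements: `m ^ 2 - m + 1 ≤ |G| ≤ m ^ 2 + m` and `G` contains a
Sidon set of size `m`. -/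
def Attains (G : Type*) [AddCommGroup G] (m : ℕ) : Prop :=
  m * m + 1 ≤ Nat.card G + m ∧ Nat.card G ≤ m * m + m ∧ ∃ A : Finset G, IsSidon A ∧ A.card = m

/-- number of solutions of `g + g = 0` -/
noncomputable def invol (G : Type*) [AddCommGroup G] : ℕ := Nat.card {g : G // g + g = 0}

section transport

variable {G K : Type*} [AddCommGroup G] [AddCommGroup K]

theorem IsSidon.map {A : Finset G} (h : IsSidon A) (e : G ≃+ K) :
    IsSidon (A.map e.toEquiv.toEmbedding) := by
  intro a ha b hb c hc d hd hs
  simp only [Finset.mem_map_equiv] at ha hb hc hd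
  have := h _ ha _ hb _ hc _ hd (by
    have h1 := congrArg e.symm hs
    simpa using h1)
  rcases this with ⟨h1, h2⟩ | ⟨h1, h2⟩
  · left
    exact ⟨e.toEquiv.symm.injective h1, e.toEquiv.symm.injective h2⟩
  · right
    exact ⟨e.toEquiv.symm.injective h1, e.toEquiv.symm.injective h2⟩

theorem Attains.congr {m : ℕ} (h : Attains G m) (e : G ≃+ K) : Attains K m := by
  obtain ⟨h1, h2, A, hA, hc⟩ := h
  have hn : Nat.card K = Nat.card G := (Nat.card_congr e.toEquiv).symm
  refine ⟨by omega, by omega, _, hA.map e, ?_⟩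
  rw [Finset.card_map]; exact hc

theorem invol_congr (e : G ≃+ K) : invol G = invol K := by
  refine Nat.card_congr (e.toEquiv.subtypeEquiv ?_)
  intro a
  constructor
  · intro h
    have := congrArg e h
    simpa using this
  · intro h
    apply e.injective
    simpa using h

end transport

section basic

variable {G : Type*} [AddCommGroup G]

/-- doubling -/
def dbl (G : Type*) [AddCommGroup G] : G →+ G := (AddMonoidHom.id G) + (AddMonoidHom.id G)

@[simp] theorem dbl_apply (g : G) : dbl G g = g + g := rfl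

theorem invol_eq : invol G = Nat.card (dbl G).ker := by
  refine Nat.card_congr (Equiv.subtypeEquivRight ?_)
  intro g
  simp [AddMonoidHom.mem_ker]

theorem card_mul [Finite G] : invol G * Nat.card (dbl G).range = Nat.card G := by
  rw [invol_eq]
  have h1 := AddSubgroup.card_mul_index (dbl G).ker
  have h2 : (dbl G).ker.index = Nat.card (dbl G).range := by
    rw [AddSubgroup.index_ker]
  rw [← h1, h2]

variable {A : Finset G}

theorem IsSidon.dinj (h : IsSidon A) {a b : G} (ha : a ∈ A) (hb : b ∈ A) (hs : a + a = b + b) :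
    a = b := by
  rcases h a ha a ha b hb b hb hs with ⟨h1, _⟩ | ⟨h1, _⟩ <;> exact h1

theorem IsSidon.diff (h : IsSidon A) {a b c d : G} (ha : a ∈ A) (hb : b ∈ A) (hc : c ∈ A)
    (hd : d ∈ A) (hne : a ≠ b) (hs : a - b = c - d) : a = c ∧ b = d := by
  have h1 : a + d = c + b := by
    have : a + d = (a - b) + (b + d) := by abel
    rw [this, hs]; abel
  rcases h a ha d hd c hc b hb h1 with ⟨h2, h3⟩ | ⟨h2, _⟩
  · exact ⟨h2, h3.symm⟩
  · exact absurd h2 hne

/-- `m ≤ |2G|` -/
theorem IsSidon.card_le [Finite G] (h : IsSidon A) : A.card ≤ Nat.card (dbl G).range := by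
  have hinj : Function.Injective (fun a : A => (⟨dbl G a.1, ⟨a.1, rfl⟩⟩ : (dbl G).range)) := by
    intro a b hab
    have h1 : a.1 + a.1 = b.1 + b.1 := congrArg Subtype.val hab
    exact Subtype.ext (h.dinj a.2 b.2 h1)
  have := Nat.card_le_card_of_injective _ hinj
  simpa using this

theorem invol_pos [Finite G] : 0 < invol G := by
  rw [invol_eq]; exact Nat.card_pos

/-- the first bound -/
theorem invol_le [Finite G] {m : ℕ} (h : Attains G m) : invol G ≤ m + 1 := by
  obtain ⟨h1, h2, A, hA, rfl⟩ := h
  have h3 := hA.card_le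
  have h4 := card_mul (G := G)
  by_contra hc
  push_neg at hc
  have h5 : 0 < A.card := by
    rcases Nat.eq_zero_or_pos A.card with h0 | h0
    · rw [h0] at h2
      have := Nat.card_pos (α := G)
      omega
    · exact h0
  nlinarith

end basic

end Pool.Agent.Helper27_Sid
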