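import Pool.Agent.Helper27_Sid.Struct

set_option autoImplicit false

open Finset

namespace Pool.Agent.Helper27_Sid

/-! ### The planar Sidon set of `K x K^*` -/

theorem attains_field (K : Type) [Field K] [Finite K] :
    Attains (K × Additive Kˣ) (Nat.card K - 1) := by
  classical
  have := Fintype.ofFinite K
  have hu : Nat.card Kˣ = Nat.card K - 1 := by
    rw [Nat.card_eq_fintype_card, Nat.card_eq_fintype_card, Fintype.card_units]
  have h1 : 1 < Nat.card K := Finite.one_lt_card
  have hc : Nat.card (K × Additive Kˣ) = Nat.card K * (Nat.card K - 1) := by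
    rw [Nat.card_prod, ← hu]
    rfl
  obtain ⟨q, hq⟩ : ∃ q, Nat.card K = q + 1 := ⟨Nat.card K - 1, by omega⟩
  refine ⟨?_, ?_, (Finset.univ : Finset Kˣ).map
    ⟨fun u : Kˣ => ((u : K), Additive.ofMul u), ?_⟩, ?_, ?_⟩
  · rw [hc, hq]; simp only [Nat.add_sub_cancel]; nlinarith
  · rw [hc, hq]; simp only [Nat.add_sub_cancel]; nlinarith
  · intro u v h
    exact Units.ext (congrArg Prod.fst h)
  · intro a ha b hb c hc d hd hs
    simp only [Finset.mem_map, Finset.mem_univ, Function.Embedding.coeFn_mk, true_and] at ha hb hc hd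
    obtain ⟨a, rfl⟩ := ha
    obtain ⟨b, rfl⟩ := hb
    obtain ⟨c, rfl⟩ := hc
    obtain ⟨d, rfl⟩ := hd
    have e1 : (a : K) + b = c + d := congrArg Prod.fst hs
    have e2 : (a : K) * b = c * d := by
      have := congrArg Prod.snd hs
      have h3 : a * b = c * d := this
      exact_mod_cast congrArg Units.val h3
    have e3 : ((a : K) - c) * (a - d) = 0 := by
      have : (a : K) * (a + b) = a * (c + d) := by rw [e1]
      linear_combination this - e2
    rcases mul_eq_zero.mp e3 with h | h
    · left
      have hac : a = c := Units.ext (sub_eq_zero.mp h)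
      subst hac
      have hbd : b = d := Units.ext (add_left_cancel e1)
      subst hbd
      exact ⟨rfl, rfl⟩
    · right
      have had : a = d := Units.ext (sub_eq_zero.mp h)
      subst had
      have hbc : b = c := Units.ext (by linear_combination e1)
      subst hbc
      exact ⟨rfl, rfl⟩
  · rw [Finset.card_map, Finset.card_univ, ← Nat.card_eq_fintype_card, hu]

theorem attains_cyclic (r : ℕ) (hr : 1 ≤ r) :
    Attains ((Fin r → ZMod 2) × ZMod (2 ^ r - 1)) (2 ^ r - 1) := by
  have : Fact (Nat.Prime 2) := ⟨Nat.prime_two⟩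
  let K := GaloisField 2 r
  have hK : Nat.card K = 2 ^ r := GaloisField.card 2 r (by omega)
  have hfin : Finite K := Nat.finite_of_card_ne_zero (by rw [hK]; positivity)
  have hchar : CharP K 2 := inferInstance
  have h1 := attains_field K
  rw [hK] at h1
  obtain ⟨s, ⟨e1⟩⟩ := two K (fun g => CharTwo.add_self_eq_zero g)
  have hs : s = r := by
    have h2 := Nat.card_congr e1.toEquiv
    rw [hK, card_pi] at h2
    exact (Nat.pow_right_injective (le_refl 2) h2).symm
  subst hs
  have hu : Nat.card (Additive Kˣ) = 2 ^ s - 1 := by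
    have := Fintype.ofFinite K
    classical
    have : Nat.card Kˣ = Nat.card K - 1 := by
      rw [Nat.card_eq_fintype_card, Nat.card_eq_fintype_card, Fintype.card_units]
    rw [← hK, ← this]
    rfl
  have hcyc : IsAddCyclic (Additive Kˣ) := inferInstance
  have e2 : ZMod (2 ^ s - 1) ≃+ Additive Kˣ := by
    rw [← hu]
    exact zmodAddCyclicAddEquiv hcyc
  exact h1.congr (AddEquiv.prodCongr e1 e2.symm)

/-! ### The group `Z_4^r` as Witt vectors of length two -/

/-- Witt vectors of length two over a field of characteristic two. -/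
@[ext] structure W (K : Type) where
  x : K
  y : K

section witt

variable {K : Type} [Field K] [CharP K 2]

instance : Add (W K) := ⟨fun a b => ⟨a.x + b.x, a.y + b.y + a.x * b.x⟩⟩
instance : Zero (W K) := ⟨⟨0, 0⟩⟩
instance : Neg (W K) := ⟨fun a => ⟨a.x, a.y + a.x * a.x⟩⟩

@[simp] theorem W.add_x (a b : W K) : (a + b).x = a.x + b.x := rfl
@[simp] theorem W.add_y (a b : W K) : (a + b).y = a.y + b.y + a.x * b.x := rfl
@[simp] theorem W.zero_x : (0 : W K).x = 0 := rfl
@[simp] theorem W.zero_y : (0 : W K).y = 0 := rfl
@[simp] theorem W.neg_x (a : W K) : (-a).x = a.x := rfl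
@[simp] theorem W.neg_y (a : W K) : (-a).y = a.y + a.x * a.x := rfl

noncomputable instance : AddCommGroup (W K) where
  add_assoc a b c := by
    ext
    · simp [add_assoc]
    · simp only [W.add_y, W.add_x]; ring
  zero_add a := by ext <;> simp
  add_zero a := by ext <;> simp
  nsmul := nsmulRec
  zsmul := zsmulRec
  neg_add_cancel a := by
    ext
    · simp only [W.add_x, W.neg_x, W.zero_x]; exact CharTwo.add_self_eq_zero _
    · simp only [W.add_y, W.neg_y, W.neg_x, W.zero_y]
      have h1 : a.y + a.x * a.x + a.y + a.x * a.x = (a.y + a.x * a.x) + (a.y + a.x * a.x) := by ring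
      rw [h1]; exact CharTwo.add_self_eq_zero _
  add_comm a b := by
    ext
    · simp [add_comm]
    · simp only [W.add_y]; ring

def W.equiv (K : Type) : W K ≃ K × K where
  toFun a := (a.x, a.y)
  invFun p := ⟨p.1, p.2⟩
  left_inv _ := rfl
  right_inv _ := rfl

theorem W.four [Finite K] (g : W K) : g + g = 0 ↔ ∃ k, g = k + k := by
  have hd : ∀ k : W K, (k + k).x = 0 := fun k => by
    simp only [W.add_x]; exact CharTwo.add_self_eq_zero _
  have hd2 : ∀ k : W K, (k + k).y = k.x * k.x := fun k => by
    simp only [W.add_y, CharTwo.add_self_eq_zero, zero_add]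
  constructor
  · intro h
    have h1 : g.x * g.x = 0 := by rw [← hd2, h]; rfl
    have h2 : g.x = 0 := by simpa using h1
    have hsurj : Function.Surjective (frobenius K 2) :=
      Finite.surjective_of_injective (frobenius_inj K 2)
    obtain ⟨z, hz⟩ := hsurj g.y
    refine ⟨⟨z, 0⟩, ?_⟩
    ext
    · rw [hd, h2]
    · rw [hd2, ← hz, frobenius_def, sq]
  · rintro ⟨k, rfl⟩
    ext
    · rw [hd]; rfl
    · rw [hd2, hd, mul_zero]; rfl

theorem W.attains [Finite K] : Attains (W K) (Nat.card K) := by
  classical
  have := Fintype.ofFinite K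
  have hc : Nat.card (W K) = Nat.card K * Nat.card K := by
    rw [Nat.card_congr (W.equiv K), Nat.card_prod]
  have h1 : 0 < Nat.card K := Nat.card_pos
  refine ⟨by rw [hc]; omega, by rw [hc]; omega, (Finset.univ : Finset K).map
    ⟨fun u : K => (⟨u, 0⟩ : W K), ?_⟩, ?_, ?_⟩
  · intro u v h
    exact congrArg W.x h
  · intro a ha b hb c hc d hd hs
    simp only [Finset.mem_map, Finset.mem_univ, Function.Embedding.coeFn_mk, true_and] at ha hb hc hd
    obtain ⟨a, rfl⟩ := ha
    obtain ⟨b, rfl⟩ := hb
    obtain ⟨c, rfl⟩ := hc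
    obtain ⟨d, rfl⟩ := hd
    have e1 : a + b = c + d := congrArg W.x hs
    have e2 : a * b = c * d := by
      have := congrArg W.y hs
      simpa using this
    have e3 : (a - c) * (a - d) = 0 := by
      have : a * (a + b) = a * (c + d) := by rw [e1]
      linear_combination this - e2
    rcases mul_eq_zero.mp e3 with h | h
    · left
      have hac : a = c := sub_eq_zero.mp h
      subst hac
      have hbd : b = d := add_left_cancel e1
      subst hbd
      exact ⟨rfl, rfl⟩
    · right
      have had : a = d := sub_eq_zero.mp h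
      subst had
      have hbc : b = c := by linear_combination e1
      subst hbc
      exact ⟨rfl, rfl⟩
  · rw [Finset.card_map, Finset.card_univ, ← Nat.card_eq_fintype_card]

end witt

theorem attains_four (r : ℕ) : Attains (Fin r → ZMod 4) (2 ^ r) := by
  rcases Nat.eq_zero_or_pos r with rfl | hr
  · refine ⟨by simp, by simp, {0}, ?_, by simp⟩
    intro a ha b hb c hc d hd _
    left
    exact ⟨Subsingleton.elim _ _, Subsingleton.elim _ _⟩
  have : Fact (Nat.Prime 2) := ⟨Nat.prime_two⟩
  let K := GaloisField 2 r
  have hK : Nat.card K = 2 ^ r := GaloisField.card 2 r (by omega)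
  have hfin : Finite K := Nat.finite_of_card_ne_zero (by rw [hK]; positivity)
  have h1 : Attains (W K) (Nat.card K) := W.attains
  rw [hK] at h1
  have hWfin : Finite (W K) := Finite.of_equiv _ (W.equiv K).symm
  obtain ⟨s, ⟨e1⟩⟩ := four (W K) W.four
  have hs : s = r := by
    have h2 := Nat.card_congr e1.toEquiv
    rw [Nat.card_congr (W.equiv K), Nat.card_prod, hK, card_pi, ← pow_add,
      show (4 : ℕ) = 2 ^ 2 by norm_num, ← pow_mul] at h2
    have := Nat.pow_right_injective (le_refl 2) h2
    omega
  subst hs
  exact h1.congr e1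

end Pool.Agent.Helper27_Sid
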