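import Pool.Agent.Helper27_Sid.Parity
import Pool.Agent.Helper27_Sid.Exist

set_option autoImplicit false

open Finset

namespace Pool.Agent.Helper27_Sid

variable {G : Type*} [AddCommGroup G]

theorem pi_two (r : ℕ) (v : Fin r → ZMod 2) : v + v = 0 := by
  funext i
  exact CharTwo.add_self_eq_zero (v i)

theorem IsSidon.shift [DecidableEq G] {A : Finset G} (h : IsSidon A) (c : G) :
    IsSidon (A.image (fun a => a - c)) := by
  intro x hx y hy z hz w hw hs
  simp only [Finset.mem_image] at hx hy hz hw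
  obtain ⟨x, hx, rfl⟩ := hx
  obtain ⟨y, hy, rfl⟩ := hy
  obtain ⟨z, hz, rfl⟩ := hz
  obtain ⟨w, hw, rfl⟩ := hw
  have h1 : x + y = z + w := by
    have : x + y = (x - c + (y - c)) + (c + c) := by abel
    rw [this, hs]; abel
  rcases h x hx y hy z hz w hw h1 with ⟨h2, h3⟩ | ⟨h2, h3⟩
  · left; rw [h2, h3]; exact ⟨rfl, rfl⟩
  · right; rw [h2, h3]; exact ⟨rfl, rfl⟩

theorem card_shift [DecidableEq G] {A : Finset G} (c : G) :
    (A.image (fun a => a - c)).card = A.card :=
  Finset.card_image_of_injective _ (sub_left_injective)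

theorem invol_pow [Finite G] : ∃ r : ℕ, invol G = 2 ^ r := by
  obtain ⟨r, ⟨e⟩⟩ := two (dbl G).ker (by
    rintro ⟨a, ha⟩
    have ha' : a + a = 0 := by simpa [AddMonoidHom.mem_ker] using ha
    exact Subtype.ext ha')
  refine ⟨r, ?_⟩
  rw [invol_eq, Nat.card_congr e.toEquiv]
  simp

theorem prime_equiv (K : Type*) [AddCommGroup K] [Finite K] (p : ℕ) [Fact p.Prime]
    (h : Nat.card K = p) : Nonempty (K ≃+ ZMod p) := by
  have := isAddCyclic_of_prime_card h
  have e := zmodAddCyclicAddEquiv this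
  rw [h] at e
  exact ⟨e.symm⟩

/-- the case `|2G| = m`, `|G[2]| = m` -/
theorem case_sq [Finite G] {A : Finset G} (h : IsSidon A) (h1 : invol G = A.card)
    (h2 : Nat.card (dbl G).range = A.card) :
    ∃ r : ℕ, A.card = 2 ^ r ∧ Nonempty (G ≃+ (Fin r → ZMod 4)) := by
  classical
  have := Fintype.ofFinite G
  have hG : Nat.card G = A.card * A.card := by rw [← card_mul, h1, h2]
  have hsurj : ∀ k : G, ∃ a ∈ A, a + a = k + k := by
    have hinj : Function.Injective (fun a : A => (⟨dbl G a.1, ⟨a.1, rfl⟩⟩ : (dbl G).range)) := by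
      intro a b hab
      have h1 : a.1 + a.1 = b.1 + b.1 := congrArg Subtype.val hab
      exact Subtype.ext (h.dinj a.2 b.2 h1)
    have hbij := (Nat.bijective_iff_injective_and_card _).mpr ⟨hinj, by simpa using h2.symm⟩
    intro k
    obtain ⟨a, ha⟩ := hbij.2 ⟨dbl G k, ⟨k, rfl⟩⟩
    exact ⟨a.1, a.2, congrArg Subtype.val ha⟩
  let NN : Finset G := A.offDiag.image (fun p => p.1 - p.2)
  have hNN : NN.card = A.card * A.card - A.card := by
    rw [Finset.card_image_of_injOn, Finset.offDiag_card]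
    rintro ⟨a, b⟩ hab ⟨c, d⟩ hcd hs
    simp only [Finset.coe_offDiag, Set.mem_offDiag, Finset.mem_coe] at hab hcd
    obtain ⟨h1, h2⟩ := h.diff hab.1 hab.2.1 hcd.1 hcd.2.1 hab.2.2 hs
    rw [h1, h2]
  have hS1 : (univ.filter (fun g : G => ¬ (g + g = 0))).card = A.card * A.card - A.card := by
    have e1 := Finset.card_filter_add_card_filter_not (s := (univ : Finset G)) (fun g : G => g + g = 0)
    have e2 : (univ.filter (fun g : G => g + g = 0)).card = A.card := by
      rw [← h1, invol, Nat.card_eq_fintype_card, Fintype.card_subtype]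
    have e3 : (univ : Finset G).card = A.card * A.card := by
      rw [Finset.card_univ, ← Nat.card_eq_fintype_card, hG]
    omega
  have hS2 : (univ.filter (fun g : G => ¬ (∃ k, g = k + k))).card = A.card * A.card - A.card := by
    have e1 := Finset.card_filter_add_card_filter_not (s := (univ : Finset G))
      (fun g : G => ∃ k, g = k + k)
    have e2 : (univ.filter (fun g : G => ∃ k, g = k + k)).card = A.card := by
      rw [← h2, ← Fintype.card_subtype, ← Nat.card_eq_fintype_card]
      refine Nat.card_congr (Equiv.subtypeEquivRight ?_)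
      intro g
      constructor
      · rintro ⟨k, rfl⟩; exact ⟨k, rfl⟩
      · rintro ⟨k, hk⟩; exact ⟨k, hk.symm⟩
    have e3 : (univ : Finset G).card = A.card * A.card := by
      rw [Finset.card_univ, ← Nat.card_eq_fintype_card, hG]
    omega
  have hN1 : NN ⊆ univ.filter (fun g : G => ¬ (g + g = 0)) := by
    intro x hx
    simp only [NN, Finset.mem_image, Finset.mem_offDiag] at hx
    obtain ⟨⟨a, b⟩, ⟨ha, hb, hab⟩, rfl⟩ := hx
    simp only [Finset.mem_filter, Finset.mem_univ, true_and]
    intro h3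
    apply hab
    apply h.dinj ha hb
    have : a + a = (a - b + (a - b)) + (b + b) := by abel
    rw [this, h3, zero_add]
  have hN2 : NN ⊆ univ.filter (fun g : G => ¬ (∃ k, g = k + k)) := by
    intro x hx
    simp only [NN, Finset.mem_image, Finset.mem_offDiag] at hx
    obtain ⟨⟨a, b⟩, ⟨ha, hb, hab⟩, rfl⟩ := hx
    simp only [Finset.mem_filter, Finset.mem_univ, true_and]
    rintro ⟨k, hk⟩
    apply hab
    obtain ⟨c, hc, hck⟩ := hsurj (k + b)
    have h4 : a + b = c + c := by
      rw [hck]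
      have : a + b = (a - b) + (b + b) := by abel
      rw [this]
      have hk' : a - b = k + k := hk
      rw [hk']; abel
    rcases h a ha b hb c hc c hc h4 with ⟨h6, h7⟩ | ⟨h6, h7⟩ <;> exact h6.trans h7.symm
  have hE1 := Finset.eq_of_subset_of_card_le hN1 (by rw [hS1, hNN])
  have hE2 := Finset.eq_of_subset_of_card_le hN2 (by rw [hS2, hNN])
  obtain ⟨r, ⟨e⟩⟩ := four G (by
    intro g
    have h5 : g ∈ univ.filter (fun g : G => ¬ (g + g = 0)) ↔
        g ∈ univ.filter (fun g : G => ¬ (∃ k, g = k + k)) := by rw [← hE1, ← hE2]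
    simp only [Finset.mem_filter, Finset.mem_univ, true_and] at h5
    exact not_iff_not.mp h5)
  refine ⟨r, ?_, ⟨e⟩⟩
  have h6 := Nat.card_congr e.toEquiv
  rw [hG, card_pi] at h6
  have h7 : (4 : ℕ) ^ r = 2 ^ r * 2 ^ r := by rw [← mul_pow]; norm_num
  rw [h7] at h6
  exact Nat.mul_self_inj.mp h6

/-- the case `|2G| = m + 1`, `|G[2]| = m` -/
theorem case_succ [Finite G] {A : Finset G} (h : IsSidon A) (h1 : invol G = A.card)
    (h2 : Nat.card (dbl G).range = A.card + 1) :
    (A.card = 2 ∧ Nonempty (G ≃+ ZMod 6)) ∨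
      (A.card = 4 ∧ Nonempty (G ≃+ ((Fin 2 → ZMod 2) × ZMod 5))) := by
  classical
  obtain ⟨s, hs⟩ := invol_pow (G := G)
  have hs0 : s ≠ 0 := by
    rintro rfl
    have e1 : Nat.card G = 2 := by
      rw [← card_mul, hs, h2, ← h1, hs]; norm_num
    have e2 : ∀ g : G, g + g = 0 := by
      intro g
      rw [← two_nsmul, ← e1]
      exact card_nsmul_eq_zero'
    have e3 : invol G = Nat.card G := by
      rw [invol]
      exact Nat.card_congr (Equiv.subtypeUnivEquiv e2)
    rw [hs, e1] at e3
    omega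
  have heven : Even A.card := by
    rw [← h1, hs]
    exact (Nat.even_pow.mpr ⟨even_two, hs0⟩)
  have hodd : Odd (Nat.card (dbl G).range) := by
    rw [h2]; exact heven.add_one
  obtain ⟨r, hr, ⟨e⟩⟩ := decomp' G hodd
  have hrm : A.card = 2 ^ r := by rw [← h1, hr]
  -- transport
  have := Fintype.ofFinite G
  have : Fintype (dbl G).range := Fintype.ofFinite _
  obtain ⟨B, hB, hBc⟩ : ∃ B : Finset ((Fin r → ZMod 2) × (dbl G).range), IsSidon B ∧ B.card = A.card :=
    ⟨_, h.map e, Finset.card_map _⟩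
  have hV : ∀ v : Fin r → ZMod 2, v + v = 0 := pi_two r
  have hinjB : ∀ a ∈ B, ∀ b ∈ B, a.2 = b.2 → a = b := by
    intro a ha b hb hab
    apply hB.dinj ha hb
    apply Prod.ext
    · rw [Prod.fst_add, Prod.fst_add, hV, hV]
    · rw [Prod.snd_add, Prod.snd_add, hab]
  have hcH : Fintype.card (dbl G).range = B.card + 1 := by
    rw [← Nat.card_eq_fintype_card, h2, hBc]
  have himg : (B.image Prod.snd).card = B.card := by
    apply Finset.card_image_of_injOn
    intro a ha b hb hab
    exact hinjB a ha b hb hab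
  have hcompl : ((B.image Prod.snd)ᶜ).card = 1 := by
    rw [Finset.card_compl, himg, hcH]; omega
  obtain ⟨k0, hk0⟩ := Finset.card_eq_one.mp hcompl
  have hall : ∀ k, k ≠ k0 → ∃ b ∈ B, b.2 = k := by
    intro k hk
    have : k ∉ (B.image Prod.snd)ᶜ := by
      rw [hk0, Finset.mem_singleton]; exact hk
    simpa only [Finset.mem_compl, not_not, Finset.mem_image] using this
  have hC : IsSidon (B.image (fun b => b - (0, k0))) := hB.shift _
  have hCc : (B.image (fun b => b - (0, k0))).card = A.card := by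
    rw [card_shift, hBc]
  have h6 : (B.image (fun b => b - (0, k0))).card ≤ 6 := by
    refine small0 hV hodd hC (by rw [hCc]; exact heven) ?_ ?_ ?_ ?_
    · intro k hk
      obtain ⟨b, hb, hbk⟩ := hall (k + k0) (by
        intro h3
        apply hk
        simpa using h3)
      refine ⟨b - (0, k0), Finset.mem_image_of_mem _ hb, ?_⟩
      rw [Prod.snd_sub, hbk]; simp
    · intro a ha b hb hab
      simp only [Finset.mem_image] at ha hb
      obtain ⟨a, ha, rfl⟩ := ha
      obtain ⟨b, hb, rfl⟩ := hb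
      rw [hinjB a ha b hb (by
        simp only [Prod.snd_sub] at hab
        exact sub_left_injective hab)]
    · rw [hCc, hrm]; simp
    · rw [hCc, ← hBc, hcH]
  rw [hCc, hrm] at h6
  have hrs : r = s := by
    have : (2 : ℕ) ^ r = 2 ^ s := by rw [← hr, ← hs]
    exact Nat.pow_right_injective (le_refl 2) this
  have hr2 : r = 1 ∨ r = 2 := by
    have : r < 3 := by
      by_contra hc
      have : (2 : ℕ) ^ 3 ≤ 2 ^ r := Nat.pow_le_pow_right (by norm_num) (by omega)
      omega
    omega
  rcases hr2 with h3 | h3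
  · left
    subst h3
    refine ⟨by rw [hrm]; norm_num, ?_⟩
    have : Fact (Nat.Prime 2) := ⟨Nat.prime_two⟩
    have : Fact (Nat.Prime 3) := ⟨Nat.prime_three⟩
    obtain ⟨e1⟩ := prime_equiv (Fin 1 → ZMod 2) 2 (by simp)
    obtain ⟨e2⟩ := prime_equiv (dbl G).range 3 (by rw [h2, hrm]; norm_num)
    have e3 : ZMod (2 * 3) ≃+ ZMod 2 × ZMod 3 :=
      (ZMod.chineseRemainder (by norm_num : Nat.Coprime 2 3)).toAddEquiv
    exact ⟨(e.trans (AddEquiv.prodCongr e1 e2)).trans e3.symm⟩
  · right
    subst h3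
    refine ⟨by rw [hrm]; norm_num, ?_⟩
    have : Fact (Nat.Prime 5) := ⟨Nat.prime_five⟩
    obtain ⟨e2⟩ := prime_equiv (dbl G).range 5 (by rw [h2, hrm]; norm_num)
    exact ⟨e.trans (AddEquiv.prodCongr (AddEquiv.refl _) e2)⟩

/-- direct product difference functions -/
def IsDPD (r : ℕ) {H : Type*} [AddCommGroup H] (f : (Fin r → ZMod 2) → H) : Prop :=
  ∀ x y x' y' : Fin r → ZMod 2, x ≠ 0 → y ≠ 0 → x' ≠ 0 → y' ≠ 0 → x ≠ y →
    x - y = x' - y' → f x - f y = f x' - f y' → x = x' ∧ y = y'

/-- the case `|G[2]| = m + 1` -/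
theorem case_top [Finite G] {A : Finset G} (h : IsSidon A) (h1 : invol G = A.card + 1)
    (h2 : Nat.card (dbl G).range = A.card) (hpos : 0 < A.card) :
    ∃ r : ℕ, A.card + 1 = 2 ^ r ∧ Nonempty (G ≃+ ((Fin r → ZMod 2) × (dbl G).range)) ∧
      ∃ f : (Fin r → ZMod 2) → (dbl G).range, IsDPD r f := by
  classical
  obtain ⟨s, hs⟩ := invol_pow (G := G)
  have hs0 : s ≠ 0 := by
    rintro rfl
    omega
  have heven : Even (A.card + 1) := by
    rw [← h1, hs]
    exact (Nat.even_pow.mpr ⟨even_two, hs0⟩)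
  have hodd : Odd (Nat.card (dbl G).range) := by
    rw [h2]
    rw [Nat.even_add_one, Nat.not_even_iff_odd] at heven
    exact heven
  obtain ⟨r, hr, ⟨e⟩⟩ := decomp' G hodd
  have hrm : A.card + 1 = 2 ^ r := by rw [← h1, hr]
  have := Fintype.ofFinite G
  have : Fintype (dbl G).range := Fintype.ofFinite _
  obtain ⟨B, hB, hBc⟩ : ∃ B : Finset ((Fin r → ZMod 2) × (dbl G).range), IsSidon B ∧ B.card = A.card :=
    ⟨_, h.map e, Finset.card_map _⟩
  have hV : ∀ v : Fin r → ZMod 2, v + v = 0 := pi_two r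
  have hinjB : ∀ a ∈ B, ∀ b ∈ B, a.2 = b.2 → a = b := by
    intro a ha b hb hab
    apply hB.dinj ha hb
    apply Prod.ext
    · rw [Prod.fst_add, Prod.fst_add, hV, hV]
    · rw [Prod.snd_add, Prod.snd_add, hab]
  have hcH : Fintype.card (dbl G).range = B.card := by
    rw [← Nat.card_eq_fintype_card, h2, hBc]
  have hsurj : ∀ k, ∃ b ∈ B, b.2 = k := by
    have himg : (B.image Prod.snd) = univ := by
      apply Finset.eq_univ_of_card
      rw [hcH]
      apply Finset.card_image_of_injOn
      intro a ha b hb hab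
      exact hinjB a ha b hb hab
    intro k
    have : k ∈ B.image Prod.snd := by rw [himg]; exact Finset.mem_univ _
    simpa only [Finset.mem_image] using this
  have hhalf : ∀ k : (dbl G).range, ∃ l, l + l = k := by
    have hi : Function.Injective (dbl (dbl G).range) := by
      rw [injective_iff_map_eq_zero]
      intro a ha
      exact eq_zero_of_odd hodd ha
    exact Finite.injective_iff_surjective.mp hi
  have hinj1 : ∀ a ∈ B, ∀ b ∈ B, a.1 = b.1 → a = b := by
    intro a ha b hb hab
    obtain ⟨l, hl⟩ := hhalf (a.2 + b.2)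
    obtain ⟨c, hc, hcl⟩ := hsurj l
    have h5 : a + b = c + c := by
      apply Prod.ext
      · rw [Prod.fst_add, Prod.fst_add, ← hab, hV, hV]
      · rw [Prod.snd_add, Prod.snd_add, hcl, hl]
    rcases hB a ha b hb c hc c hc h5 with ⟨h6, h7⟩ | ⟨h6, h7⟩ <;> exact h6.trans h7.symm
  have himg1 : (B.image Prod.fst).card = B.card := by
    apply Finset.card_image_of_injOn
    intro a ha b hb hab
    exact hinj1 a ha b hb hab
  have hcompl : ((B.image Prod.fst)ᶜ).card = 1 := by
    rw [Finset.card_compl, himg1, hBc]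
    have : Fintype.card (Fin r → ZMod 2) = A.card + 1 := by rw [hrm]; simp
    rw [this]; omega
  obtain ⟨v0, hv0⟩ := Finset.card_eq_one.mp hcompl
  have hall : ∀ v, v ≠ v0 → ∃ b ∈ B, b.1 = v := by
    intro v hv
    have : v ∉ (B.image Prod.fst)ᶜ := by
      rw [hv0, Finset.mem_singleton]; exact hv
    simpa only [Finset.mem_compl, not_not, Finset.mem_image] using this
  have hall' : ∀ v : Fin r → ZMod 2, ∃ k : (dbl G).range, v ≠ 0 → (v + v0, k) ∈ B := by
    intro v
    by_cases hv : v = 0
    · exact ⟨0, fun h3 => absurd hv h3⟩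
    · obtain ⟨b, hb, hbv⟩ := hall (v + v0) (by
        intro h3
        apply hv
        simpa using h3)
      refine ⟨b.2, fun _ => ?_⟩
      rw [← hbv]; exact hb
  choose f hf using hall'
  refine ⟨r, hrm, ⟨e⟩, f, ?_⟩
  intro x y x' y' hx hy hx' hy' hxy h3 h4
  have h5 := hB.diff (hf x hx) (hf y hy) (hf x' hx') (hf y' hy') (by
    intro h6
    apply hxy
    have := congrArg Prod.fst h6
    simpa using this) (by
    apply Prod.ext
    · simp only [Prod.fst_sub, add_sub_add_right_eq_sub]; exact h3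
    · exact h4)
  exact ⟨by simpa using congrArg Prod.fst h5.1, by simpa using congrArg Prod.fst h5.2⟩

theorem dpd_cyclic (r : ℕ) (hr : 1 ≤ r) :
    ∃ f : (Fin r → ZMod 2) → ZMod (2 ^ r - 1), IsDPD r f := by
  classical
  have : Fact (Nat.Prime 2) := ⟨Nat.prime_two⟩
  let K := GaloisField 2 r
  have hK : Nat.card K = 2 ^ r := GaloisField.card 2 r (by omega)
  have hfin : Finite K := Nat.finite_of_card_ne_zero (by rw [hK]; positivity)
  have hchar : CharP K 2 := inferInstance
  obtain ⟨s, ⟨e1⟩⟩ := two K (fun g => CharTwo.add_self_eq_zero g)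
  have hs : s = r := by
    have h2 := Nat.card_congr e1.toEquiv
    rw [hK, card_pi] at h2
    exact (Nat.pow_right_injective (le_refl 2) h2).symm
  subst hs
  have hu : Nat.card (Additive Kˣ) = 2 ^ s - 1 := by
    have := Fintype.ofFinite K
    have : Nat.card Kˣ = Nat.card K - 1 := by
      rw [Nat.card_eq_fintype_card, Nat.card_eq_fintype_card, Fintype.card_units]
    rw [← hK, ← this]
    rfl
  have hcyc : IsAddCyclic (Additive Kˣ) := inferInstance
  have e2 : ZMod (2 ^ s - 1) ≃+ Additive Kˣ := by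
    rw [← hu]
    exact zmodAddCyclicAddEquiv hcyc
  let g : K → ZMod (2 ^ s - 1) := fun z => if hz : z = 0 then 0 else
    e2.symm (Additive.ofMul (Units.mk0 z hz))
  have hg : ∀ (z w : K) (hz : z ≠ 0) (hw : w ≠ 0),
      e2 (g z - g w) = Additive.ofMul (Units.mk0 z hz / Units.mk0 w hw) := by
    intro z w hz hw
    simp only [g, dif_neg hz, dif_neg hw, map_sub, AddEquiv.apply_symm_apply]
    rfl
  refine ⟨fun v => g (e1.symm v), ?_⟩
  intro x y x' y' hx hy hx' hy' hxy h1 h2
  have ne : ∀ v : Fin s → ZMod 2, v ≠ 0 → e1.symm v ≠ 0 := fun v hv h3 => hv (by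
    have := congrArg e1 h3
    simpa using this)
  have h3 : e1.symm x - e1.symm y = e1.symm x' - e1.symm y' := by
    rw [← map_sub, h1, map_sub]
  have h4 := congrArg e2 h2
  simp only at h4
  rw [hg _ _ (ne x hx) (ne y hy), hg _ _ (ne x' hx') (ne y' hy')] at h4
  have h5 : Units.mk0 (e1.symm x) (ne x hx) / Units.mk0 (e1.symm y) (ne y hy) =
      Units.mk0 (e1.symm x') (ne x' hx') / Units.mk0 (e1.symm y') (ne y' hy') := h4
  have h6 := congrArg Units.val h5
  simp only [Units.val_div_eq_div_val, Units.val_mk0] at h6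
  have h7 : e1.symm x * e1.symm y' = e1.symm x' * e1.symm y :=
    (div_eq_div_iff (ne y hy) (ne y' hy')).mp h6
  have h8 : (e1.symm x - e1.symm y) * (e1.symm y' - e1.symm y) = 0 := by
    have h9 : e1.symm y * (e1.symm x - e1.symm y) = e1.symm y * (e1.symm x' - e1.symm y') := by
      rw [h3]
    linear_combination h7 - h9
  have h10 : e1.symm x - e1.symm y ≠ 0 := fun h11 => hxy (e1.symm.injective (sub_eq_zero.mp h11))
  have h12 : y' = y := by
    rcases mul_eq_zero.mp h8 with h | h
    · exact absurd h h10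
    · exact e1.symm.injective (sub_eq_zero.mp h)
  subst h12
  refine ⟨?_, rfl⟩
  exact sub_left_injective h1

/-! ### converses -/

theorem invol_prod (V H : Type*) [AddCommGroup V] [AddCommGroup H] :
    invol (V × H) = invol V * invol H := by
  rw [invol, invol, invol, ← Nat.card_prod]
  refine Nat.card_congr ?_
  refine (Equiv.subtypeEquivRight ?_).trans (Equiv.subtypeProdEquivProd (p := fun v : V => v + v = 0)
    (q := fun k : H => k + k = 0))
  rintro ⟨v, k⟩
  exact Prod.ext_iff

theorem invol_all (V : Type*) [AddCommGroup V] (h : ∀ v : V, v + v = 0) :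
    invol V = Nat.card V := Nat.card_congr (Equiv.subtypeUnivEquiv h)

theorem invol_odd (H : Type*) [AddCommGroup H] [Finite H] (h : Odd (Nat.card H)) :
    invol H = 1 := by
  rw [invol, Nat.card_eq_one_iff_unique]
  refine ⟨⟨fun a b => Subtype.ext ?_⟩, ⟨⟨0, add_zero 0⟩⟩⟩
  rw [eq_zero_of_odd h a.2, eq_zero_of_odd h b.2]

theorem invol_four (r : ℕ) : invol (Fin r → ZMod 4) = 2 ^ r := by
  have e : {g : Fin r → ZMod 4 // g + g = 0} ≃ (Fin r → {z : ZMod 4 // z + z = 0}) := by
    refine (Equiv.subtypeEquivRight ?_).trans Equiv.subtypePiEquivPi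
    intro g
    exact funext_iff
  rw [invol, Nat.card_congr e]
  have h2 : Nat.card {z : ZMod 4 // z + z = 0} = 2 := by
    rw [Nat.card_eq_fintype_card]; decide
  rw [Nat.card_pi, h2]
  simp

theorem invol_six : invol (ZMod 6) = 2 := by
  rw [invol, Nat.card_eq_fintype_card]; decide

theorem invol_twenty : invol ((Fin 2 → ZMod 2) × ZMod 5) = 4 := by
  rw [invol_prod, invol_all _ (pi_two 2), invol_odd (ZMod 5) (by
    rw [Nat.card_zmod]; decide)]
  simp

theorem attains_six : Attains (ZMod 6) 2 := by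
  refine ⟨by rw [Nat.card_zmod]; norm_num, by rw [Nat.card_zmod], {0, 1}, ?_, by decide⟩
  unfold IsSidon
  decide

theorem attains_twenty : Attains ((Fin 2 → ZMod 2) × ZMod 5) 4 := by
  have h1 : Nat.card ((Fin 2 → ZMod 2) × ZMod 5) = 20 := by
    rw [Nat.card_prod, Nat.card_zmod]; simp
  refine ⟨by rw [h1]; norm_num, by rw [h1],
    {(![0, 0], 0), (![0, 0], 1), (![1, 0], 2), (![0, 1], 4)}, ?_, by decide⟩
  unfold IsSidon
  decide

theorem attains_dpd (r m : ℕ) (hr : m + 1 = 2 ^ r) (H : Type*) [AddCommGroup H] [Finite H]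
    (hH : Nat.card H = m) (f : (Fin r → ZMod 2) → H) (hf : IsDPD r f) :
    Attains ((Fin r → ZMod 2) × H) m := by
  classical
  have hpos : 0 < m := by rw [← hH]; exact Nat.card_pos
  have hc : Nat.card ((Fin r → ZMod 2) × H) = (m + 1) * m := by
    rw [Nat.card_prod, hH, card_pi, hr]
  refine ⟨by rw [hc]; nlinarith, by rw [hc]; nlinarith,
    (univ.filter (fun v : Fin r → ZMod 2 => v ≠ 0)).image (fun v => (v, f v)), ?_, ?_⟩
  · intro a ha b hb c hc d hd hs
    simp only [Finset.mem_image, Finset.mem_filter, Finset.mem_univ, true_and] at ha hb hc hd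
    obtain ⟨x, hx, rfl⟩ := ha
    obtain ⟨y, hy, rfl⟩ := hb
    obtain ⟨z, hz, rfl⟩ := hc
    obtain ⟨w, hw, rfl⟩ := hd
    have s1 : x + y = z + w := congrArg Prod.fst hs
    have s2 : f x + f y = f z + f w := congrArg Prod.snd hs
    by_cases hxz : x = z
    · left
      subst hxz
      have : y = w := add_left_cancel s1
      subst this
      exact ⟨rfl, rfl⟩
    · right
      obtain ⟨h1, h2⟩ := hf x z w y hx hz hw hy hxz (by
        rw [sub_eq_sub_iff_add_eq_add, s1, add_comm]) (by
        rw [sub_eq_sub_iff_add_eq_add, s2, add_comm])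
      subst h1
      subst h2
      exact ⟨rfl, rfl⟩
  · rw [Finset.card_image_of_injective _ (fun a b h => congrArg Prod.fst h), Finset.filter_ne',
      Finset.card_erase_of_mem (Finset.mem_univ _), Finset.card_univ]
    have : Fintype.card (Fin r → ZMod 2) = 2 ^ r := by simp
    rw [this, ← hr]; rfl

end Pool.Agent.Helper27_Sid
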