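import Pool.Agent.Helper27_Sid.Struct

set_option autoImplicit false

open Finset

namespace Pool.Agent.Helper27_Sid

/-- A symmetric double sum in characteristic two is its diagonal. -/
theorem sum_symm {α : Type*} [DecidableEq α] (A : Finset α) (f : α → α → ZMod 2)
    (hf : ∀ a b, f a b = f b a) : ∑ a ∈ A, ∑ b ∈ A, f a b = ∑ a ∈ A, f a a := by
  induction A using Finset.induction_on with
  | empty => simp
  | insert x A hx ih =>
    rw [Finset.sum_insert hx, Finset.sum_insert hx, Finset.sum_insert hx]
    have h1 : ∑ a ∈ A, ∑ b ∈ insert x A, f a b = ∑ a ∈ A, f x a + ∑ a ∈ A, f a a := by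
      rw [← ih, ← Finset.sum_add_distrib]
      refine Finset.sum_congr rfl (fun a _ => ?_)
      rw [Finset.sum_insert hx, hf a x]
    rw [h1]
    have h2 : ∀ y : ZMod 2, y + y = 0 := by decide
    linear_combination h2 (∑ a ∈ A, f x a)

section main

variable {V H : Type*} [AddCommGroup V] [AddCommGroup H] [Fintype V] [Fintype H]
  [DecidableEq V] [DecidableEq H]

/-- set of the nonzero differences -/
def N (A : Finset (V × H)) : Finset (V × H) := A.offDiag.image (fun p => p.1 - p.2)

theorem mem_N {A : Finset (V × H)} {x : V × H} :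
    x ∈ N A ↔ ∃ a ∈ A, ∃ b ∈ A, a ≠ b ∧ a - b = x := by
  simp only [N, Finset.mem_image, Finset.mem_offDiag]
  constructor
  · rintro ⟨⟨a, b⟩, ⟨h1, h2, h3⟩, h4⟩
    exact ⟨a, h1, b, h2, h3, h4⟩
  · rintro ⟨a, h1, b, h2, h3, h4⟩
    exact ⟨(a, b), ⟨h1, h2, h3⟩, h4⟩

theorem card_N {A : Finset (V × H)} (h : IsSidon A) :
    (N A).card = A.card * A.card - A.card := by
  rw [N, Finset.card_image_of_injOn, Finset.offDiag_card]
  rintro ⟨a, b⟩ hab ⟨c, d⟩ hcd hs
  simp only [Finset.coe_offDiag, Set.mem_offDiag, Finset.mem_coe] at hab hcd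
  obtain ⟨h1, h2⟩ := h.diff hab.1 hab.2.1 hcd.1 hcd.2.1 hab.2.2 hs
  rw [h1, h2]

/-- number mod two of representations as a difference -/
theorem rep_eq {A : Finset (V × H)} (h : IsSidon A) (heven : Even A.card) (x : V × H) :
    (∑ b ∈ A, ∑ c ∈ A, if b - c = x then (1 : ZMod 2) else 0) = if x ∈ N A then 1 else 0 := by
  classical
  by_cases hx : x = 0
  · subst hx
    have h1 : (0 : V × H) ∉ N A := by
      rw [mem_N]
      rintro ⟨a, _, b, _, h3, h4⟩
      exact h3 (sub_eq_zero.mp h4)
    rw [if_neg h1]
    have h2 : (∑ b ∈ A, ∑ c ∈ A, if b - c = 0 then (1 : ZMod 2) else 0) = ∑ b ∈ A, 1 := by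
      refine Finset.sum_congr rfl (fun b hb => ?_)
      rw [Finset.sum_eq_single b]
      · simp
      · intro c _ hc
        rw [if_neg]
        intro h3
        exact hc (sub_eq_zero.mp h3).symm
      · intro h3; exact absurd hb h3
    rw [h2, Finset.sum_const, nsmul_eq_mul, mul_one]
    exact (ZMod.natCast_eq_zero_iff _ _).mpr heven.two_dvd
  · by_cases hN : x ∈ N A
    · rw [if_pos hN]
      obtain ⟨a, ha, b, hb, hab, rfl⟩ := mem_N.mp hN
      rw [Finset.sum_eq_single a]
      · rw [Finset.sum_eq_single b]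
        · simp
        · intro c hc hcb
          rw [if_neg]
          intro h3
          exact hcb (sub_right_injective h3)
        · intro h3; exact absurd hb h3
      · intro c hc hca
        refine Finset.sum_eq_zero (fun d hd => ?_)
        rw [if_neg]
        intro h3
        exact hca (h.diff ha hb hc hd hab h3.symm).1.symm
      · intro h3; exact absurd ha h3
    · rw [if_neg hN]
      refine Finset.sum_eq_zero (fun b hb => Finset.sum_eq_zero (fun c hc => ?_))
      rw [if_neg]
      intro h3
      apply hN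
      rw [mem_N]
      refine ⟨b, hb, c, hc, ?_, h3⟩
      rintro rfl
      exact hx (by rw [← h3, sub_self])

/-- the exceptional differences -/
def Del (A : Finset (V × H)) : Finset (V × H) :=
  insert 0 (((N A).filter (fun x => x.1 = 0)) ∪
    (univ.filter (fun x : V × H => x.1 ≠ 0 ∧ x.2 ≠ 0 ∧ x ∉ N A)))

variable {A : Finset (V × H)}

theorem key_cover (hV : ∀ v : V, v + v = 0) (hH : Odd (Nat.card H)) (h : IsSidon A)
    (heven : Even A.card) (h1 : ∀ k : H, k ≠ 0 → ∃ a ∈ A, a.2 = k)
    (hinj : ∀ a ∈ A, ∀ b ∈ A, a.2 = b.2 → a = b)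
    (g : V × H) (hg : g.2 ≠ 0) (hgA : -g ∉ A) : ∃ a ∈ A, g - a ∈ Del A := by
  have hnegV : ∀ v : V, -v = v := fun v => by
    rw [neg_eq_iff_add_eq_zero]; exact hV v
  -- first count
  have e1 : ∑ a ∈ A, (∑ b ∈ A, ∑ c ∈ A, if b - c = g - a then (1 : ZMod 2) else 0) =
      ∑ a ∈ A, if g - a ∈ N A then (1 : ZMod 2) else 0 :=
    Finset.sum_congr rfl (fun a _ => rep_eq h heven _)
  -- second count
  have e2 : ∑ a ∈ A, (∑ b ∈ A, ∑ c ∈ A, if b - c = g - a then (1 : ZMod 2) else 0) =
      ∑ a ∈ A, ∑ c ∈ A, if a - c = g - a then (1 : ZMod 2) else 0 := by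
    apply sum_symm A (fun a b => ∑ c ∈ A, if b - c = g - a then (1 : ZMod 2) else 0)
    intro a b
    refine Finset.sum_congr rfl (fun c _ => ?_)
    congr 1
    rw [eq_iff_iff]
    constructor
    · intro h3
      have : a - c = (b - c) + a - b := by abel
      rw [this, h3]; abel
    · intro h3
      have : b - c = (a - c) + b - a := by abel
      rw [this, h3]; abel
  have e3 : ∑ a ∈ A, ∑ c ∈ A, (if a - c = g - a then (1 : ZMod 2) else 0) =
      ∑ c ∈ A, if c.1 = g.1 then (1 : ZMod 2) else 0 := by
    rw [Finset.sum_comm]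
    refine Finset.sum_congr rfl (fun c hc => ?_)
    by_cases hcg : c.1 = g.1
    · rw [if_pos hcg]
      -- g + c = 2 a for exactly one a
      have hgc : g.2 + c.2 ≠ 0 := by
        intro h3
        apply hgA
        have : -g = c := by
          apply Prod.ext
          · rw [Prod.fst_neg, hnegV, hcg]
          · rw [Prod.snd_neg, neg_eq_iff_add_eq_zero]; exact h3
        rw [this]; exact hc
      obtain ⟨k, hk⟩ := (show Function.Surjective (dbl H) by
        have : Function.Injective (dbl H) := by
          rw [injective_iff_map_eq_zero]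
          intro a ha
          exact eq_zero_of_odd hH ha
        exact (Finite.injective_iff_surjective.mp this)) (g.2 + c.2)
      have hk' : k + k = g.2 + c.2 := hk
      have hk0 : k ≠ 0 := by
        rintro rfl
        apply hgc; rw [← hk', add_zero]
      obtain ⟨a, ha, hak⟩ := h1 k hk0
      rw [Finset.sum_eq_single a]
      · rw [if_pos]
        have : a + a = g + c := by
          apply Prod.ext
          · rw [Prod.fst_add, Prod.fst_add, hV, hcg, hV]
          · rw [Prod.snd_add, Prod.snd_add, hak, hk']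
        have h4 : a - c = (a + a) - a - c := by abel
        rw [h4, this]; abel
      · intro b hb hba
        rw [if_neg]
        intro h3
        apply hba
        apply hinj b hb a ha
        have h4 : b + b = g + c := by
          have : b + b = (b - c) + b + c := by abel
          rw [this, h3]; abel
        have h5 : b.2 + b.2 = k + k := by
          rw [hk']; exact congrArg Prod.snd h4
        have h6 : (b.2 - k) + (b.2 - k) = 0 := by
          have : (b.2 - k) + (b.2 - k) = (b.2 + b.2) - (k + k) := by abel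
          rw [this, h5, sub_self]
        rw [hak]
        exact sub_eq_zero.mp (eq_zero_of_odd hH h6)
      · intro h3; exact absurd ha h3
    · rw [if_neg hcg]
      refine Finset.sum_eq_zero (fun a ha => ?_)
      rw [if_neg]
      intro h3
      apply hcg
      have h4 : a + a = g + c := by
        have : a + a = (a - c) + a + c := by abel
        rw [this, h3]; abel
      have h5 : (0 : V) = g.1 + c.1 := by
        rw [← hV a.1]; exact congrArg Prod.fst h4
      have h6 : c.1 = - g.1 := by
        rw [eq_neg_iff_add_eq_zero, add_comm]; exact h5.symm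
      rw [h6, hnegV]
  by_contra hno
  push Not at hno
  -- the indicator of N
  have e4 : ∑ a ∈ A, (if g - a ∈ N A then (1 : ZMod 2) else 0) =
      ∑ a ∈ A, (1 + (if a.2 = g.2 then (1 : ZMod 2) else 0) +
        (if a.1 = g.1 then (1 : ZMod 2) else 0)) := by
    refine Finset.sum_congr rfl (fun a ha => ?_)
    have h2 := hno a ha
    simp only [Del, Finset.mem_insert, Finset.mem_union, Finset.mem_filter, Finset.mem_univ,
      true_and, not_or, not_and, not_not, Prod.fst_sub, Prod.snd_sub, sub_eq_zero] at h2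
    obtain ⟨h3, h4, h5⟩ := h2
    by_cases hN : g - a ∈ N A
    · have h6 : a.1 ≠ g.1 := fun hh => h4 hN hh.symm
      have h7 : a.2 ≠ g.2 := by
        intro hh
        obtain ⟨b, hb, c, hc, hbc, hs⟩ := mem_N.mp hN
        apply hbc
        apply hinj b hb c hc
        have := congrArg Prod.snd hs
        simp only [Prod.snd_sub, hh, sub_self] at this
        exact sub_eq_zero.mp this
      rw [if_pos hN, if_neg h6, if_neg h7]; simp
    · rw [if_neg hN]
      by_cases h6 : a.1 = g.1
      · have h7 : a.2 ≠ g.2 := fun hh => h3 (Prod.ext h6.symm hh.symm)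
        rw [if_pos h6, if_neg h7]; decide
      · have h7 : a.2 = g.2 := by
          by_contra hh
          exact hN (h5 (fun h8 => h6 (sub_eq_zero.mp h8).symm)
            (fun h8 => hh (sub_eq_zero.mp h8).symm))
        rw [if_neg h6, if_pos h7]; decide
  have e5 : ∑ a ∈ A, (if a.2 = g.2 then (1 : ZMod 2) else 0) = 1 := by
    obtain ⟨a, ha, hag⟩ := h1 g.2 hg
    rw [Finset.sum_eq_single a]
    · rw [if_pos hag]
    · intro b hb hba
      rw [if_neg]
      intro h3
      exact hba (hinj b hb a ha (by rw [h3, hag]))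
    · intro h3; exact absurd ha h3
  have e6 : ∑ a ∈ A, (1 : ZMod 2) = 0 := by
    rw [Finset.sum_const, nsmul_eq_mul, mul_one]
    exact (ZMod.natCast_eq_zero_iff _ _).mpr heven.two_dvd
  rw [Finset.sum_add_distrib, Finset.sum_add_distrib, e5, e6] at e4
  rw [e1, e3] at e2
  rw [e2] at e4
  have : (1 : ZMod 2) = 0 := by linear_combination -e4
  exact absurd this (by decide)

theorem pair_zero (hV : ∀ v : V, v + v = 0) (hH : Odd (Nat.card H)) (h : IsSidon A)
    (h1 : ∀ k : H, k ≠ 0 → ∃ a ∈ A, a.2 = k) {a b : V × H} (ha : a ∈ A) (hb : b ∈ A)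
    (hab : a ≠ b) (h2 : a.1 = b.1) : a + b = 0 := by
  by_contra hne
  have h3 : a.2 + b.2 ≠ 0 := by
    intro h4
    apply hne
    apply Prod.ext
    · rw [Prod.fst_add, ← h2, hV]; rfl
    · exact h4
  obtain ⟨k, hk⟩ := (show Function.Surjective (dbl H) by
    have : Function.Injective (dbl H) := by
      rw [injective_iff_map_eq_zero]
      intro a ha
      exact eq_zero_of_odd hH ha
    exact (Finite.injective_iff_surjective.mp this)) (a.2 + b.2)
  have hk' : k + k = a.2 + b.2 := hk
  have hk0 : k ≠ 0 := by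
    rintro rfl
    apply h3; rw [← hk', add_zero]
  obtain ⟨c, hc, hck⟩ := h1 k hk0
  have h5 : a + b = c + c := by
    apply Prod.ext
    · rw [Prod.fst_add, Prod.fst_add, ← h2, hV, hV]
    · rw [Prod.snd_add, Prod.snd_add, hck, hk']
  rcases h a ha b hb c hc c hc h5 with ⟨h6, h7⟩ | ⟨h6, h7⟩ <;> exact hab (h6.trans h7.symm)

theorem card_NH (hV : ∀ v : V, v + v = 0) (hH : Odd (Nat.card H)) (h : IsSidon A)
    (h1 : ∀ k : H, k ≠ 0 → ∃ a ∈ A, a.2 = k) :
    ((N A).filter (fun x => x.1 = 0)).card ≤ 2 := by
  by_cases hex : ∃ a ∈ A, ∃ b ∈ A, a ≠ b ∧ a.1 = b.1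
  · obtain ⟨a, ha, b, hb, hab, h2⟩ := hex
    have h3 := pair_zero hV hH h h1 ha hb hab h2
    refine le_trans (Finset.card_le_card (t := {a - b, b - a}) ?_) Finset.card_le_two
    intro x hx
    simp only [Finset.mem_filter] at hx
    obtain ⟨hxN, hx0⟩ := hx
    obtain ⟨c, hc, d, hd, hcd, rfl⟩ := mem_N.mp hxN
    have h4 : c.1 = d.1 := sub_eq_zero.mp hx0
    have h5 := pair_zero hV hH h h1 hc hd hcd h4
    simp only [Finset.mem_insert, Finset.mem_singleton]
    rcases h a ha b hb c hc d hd (by rw [h3, h5]) with ⟨h6, h7⟩ | ⟨h6, h7⟩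
    · left; rw [h6, h7]
    · right; rw [h6, h7]
  · have h2 : (N A).filter (fun x => x.1 = 0) = ∅ := by
      rw [Finset.filter_eq_empty_iff]
      intro x hx hx0
      obtain ⟨c, hc, d, hd, hcd, rfl⟩ := mem_N.mp hx
      exact hex ⟨c, hc, d, hd, hcd, sub_eq_zero.mp hx0⟩
    rw [h2]; simp

theorem card_Del (hV : ∀ v : V, v + v = 0) (hH : Odd (Nat.card H)) (h : IsSidon A)
    (h1 : ∀ k : H, k ≠ 0 → ∃ a ∈ A, a.2 = k)
    (hinj : ∀ a ∈ A, ∀ b ∈ A, a.2 = b.2 → a = b)
    (hcV : Fintype.card V = A.card) (hcH : Fintype.card H = A.card + 1) :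
    (Del A).card ≤ 5 := by
  have hN2 := card_NH hV hH h h1
  have hNc := card_N h
  -- the three parts
  have hNne : ∀ x ∈ N A, x.2 ≠ 0 := by
    intro x hx h3
    obtain ⟨b, hb, c, hc, hbc, rfl⟩ := mem_N.mp hx
    exact hbc (hinj b hb c hc (sub_eq_zero.mp h3))
  have c1 : (univ.filter (fun x : V × H => x.2 ≠ 0)).card = A.card * A.card := by
    have : (univ.filter (fun x : V × H => x.2 ≠ 0)) = univ ×ˢ (univ.filter (fun k : H => k ≠ 0)) := by
      ext x
      simp only [Finset.mem_filter, Finset.mem_univ, true_and, Finset.mem_product]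
    rw [this, Finset.card_product, Finset.card_univ, hcV, Finset.filter_ne', Finset.card_erase_of_mem
      (Finset.mem_univ _), Finset.card_univ, hcH]
    simp
  have c2 : (univ.filter (fun x : V × H => x.1 = 0 ∧ x.2 ≠ 0)).card = A.card := by
    have : (univ.filter (fun x : V × H => x.1 = 0 ∧ x.2 ≠ 0)) =
        {0} ×ˢ (univ.filter (fun k : H => k ≠ 0)) := by
      ext x
      simp only [Finset.mem_filter, Finset.mem_univ, true_and, Finset.mem_product,
        Finset.mem_singleton]
    rw [this, Finset.card_product, Finset.card_singleton, one_mul, Finset.filter_ne',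
      Finset.card_erase_of_mem (Finset.mem_univ _), Finset.card_univ, hcH]
    simp
  set D := univ.filter (fun x : V × H => x.2 ≠ 0 ∧ x ∉ N A) with hD
  have c3 : D.card + (N A).card = A.card * A.card := by
    rw [← c1, ← Finset.card_union_of_disjoint]
    · congr 1
      ext x
      simp only [hD, Finset.mem_union, Finset.mem_filter, Finset.mem_univ, true_and]
      constructor
      · rintro (h3 | h3)
        · exact h3.1
        · exact hNne x h3
      · intro h3
        by_cases h4 : x ∈ N A
        · right; exact h4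
        · left; exact ⟨h3, h4⟩
    · rw [Finset.disjoint_left]
      intro x hx hx'
      simp only [hD, Finset.mem_filter, Finset.mem_univ, true_and] at hx
      exact hx.2 hx'
  have c4 : (D.filter (fun x => x.1 = 0)).card + ((N A).filter (fun x => x.1 = 0)).card
      = A.card := by
    conv_rhs => rw [← c2]
    rw [← Finset.card_union_of_disjoint]
    · congr 1
      ext x
      simp only [hD, Finset.mem_union, Finset.mem_filter, Finset.mem_univ, true_and]
      constructor
      · rintro (h3 | h3)
        · exact ⟨h3.2, h3.1.1⟩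
        · exact ⟨h3.2, hNne x h3.1⟩
      · rintro ⟨h3, h4⟩
        by_cases h5 : x ∈ N A
        · right; exact ⟨h5, h3⟩
        · left; exact ⟨⟨h4, h5⟩, h3⟩
    · rw [Finset.disjoint_left]
      intro x hx hx'
      simp only [hD, Finset.mem_filter, Finset.mem_univ, true_and] at hx hx'
      exact hx.1.2 hx'.1
  have c5 : (D.filter (fun x => x.1 = 0)).card + (D.filter (fun x => ¬ x.1 = 0)).card = D.card :=
    Finset.card_filter_add_card_filter_not (s := D) (fun x : V × H => x.1 = 0)
  have c6 : (univ.filter (fun x : V × H => x.1 ≠ 0 ∧ x.2 ≠ 0 ∧ x ∉ N A)) =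
      D.filter (fun x => ¬ x.1 = 0) := by
    ext x
    simp only [hD, Finset.mem_filter, Finset.mem_univ, true_and]
    tauto
  have c7 : A.card ≤ A.card * A.card := by
    rcases Nat.eq_zero_or_pos A.card with h3 | h3
    · rw [h3]
    · exact Nat.le_mul_of_pos_left _ h3
  rw [Del, c6]
  refine le_trans (Finset.card_insert_le _ _) ?_
  have c8 := Finset.card_union_le ((N A).filter (fun x => x.1 = 0)) (D.filter (fun x => ¬ x.1 = 0))
  omega

theorem small0 (hV : ∀ v : V, v + v = 0) (hH : Odd (Nat.card H)) (h : IsSidon A)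
    (heven : Even A.card) (h1 : ∀ k : H, k ≠ 0 → ∃ a ∈ A, a.2 = k)
    (hinj : ∀ a ∈ A, ∀ b ∈ A, a.2 = b.2 → a = b)
    (hcV : Fintype.card V = A.card) (hcH : Fintype.card H = A.card + 1) : A.card ≤ 6 := by
  have hc := key_cover hV hH h heven h1 hinj
  have hD := card_Del hV hH h h1 hinj hcV hcH
  have hsub : (univ : Finset (V × H)) ⊆
      (univ.filter (fun x : V × H => x.2 = 0)) ∪ (A.image (fun x => -x)) ∪
        ((A ×ˢ (Del A)).image (fun p => p.1 + p.2)) := by
    intro g _
    simp only [Finset.mem_union, Finset.mem_filter, Finset.mem_univ, true_and, Finset.mem_image,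
      Finset.mem_product]
    by_cases hg : g.2 = 0
    · left; left; exact hg
    · by_cases hgA : -g ∈ A
      · left; right
        exact ⟨-g, hgA, neg_neg g⟩
      · right
        obtain ⟨a, ha, haD⟩ := hc g hg hgA
        exact ⟨(a, g - a), ⟨ha, haD⟩, add_sub_cancel a g⟩
  have h2 := Finset.card_le_card hsub
  have h3 := Finset.card_union_le ((univ.filter (fun x : V × H => x.2 = 0)) ∪ (A.image (fun x => -x)))
        ((A ×ˢ (Del A)).image (fun p => p.1 + p.2))
  have h4 := Finset.card_union_le (univ.filter (fun x : V × H => x.2 = 0)) (A.image (fun x => -x))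
  have h5 : (A.image (fun x => -x)).card ≤ A.card := Finset.card_image_le
  have h6 : ((A ×ˢ (Del A)).image (fun p => p.1 + p.2)).card ≤ A.card * 5 := by
    refine le_trans Finset.card_image_le ?_
    rw [Finset.card_product]
    exact Nat.mul_le_mul_left _ hD
  have h7 : (univ.filter (fun x : V × H => x.2 = 0)).card = A.card := by
    have : (univ.filter (fun x : V × H => x.2 = 0)) = univ ×ˢ {0} := by
      ext x
      simp only [Finset.mem_filter, Finset.mem_univ, true_and, Finset.mem_product,
        Finset.mem_singleton]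
    rw [this, Finset.card_product, Finset.card_univ, hcV]; simp
  have h8 : (univ : Finset (V × H)).card = A.card * (A.card + 1) := by
    rw [Finset.card_univ, Fintype.card_prod, hcV, hcH]
  rcases Nat.eq_zero_or_pos A.card with h9 | h9
  · omega
  · have h10 : A.card * (A.card + 1) ≤ A.card * 7 := by omega
    have := Nat.le_of_mul_le_mul_left h10 h9
    omega

end main

end Pool.Agent.Helper27_Sid
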