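import Pool.Agent.Helper27_Sid.Basic

set_option autoImplicit false

open Finset

namespace Pool.Agent.Helper27_Sid

theorem pi_const_equiv (ι : Type) [Fintype ι] (n : ℕ) :
    Nonempty ((ι → ZMod n) ≃+ (Fin (Fintype.card ι) → ZMod n)) :=
  ⟨(LinearEquiv.funCongrLeft (ZMod n) (ZMod n) (Fintype.equivFin ι).symm).toAddEquiv⟩

theorem exists_pi (G : Type*) [AddCommGroup G] [Finite G] :
    ∃ (ι : Type) (_ : Fintype ι) (n : ι → ℕ), (∀ i, 1 < n i) ∧
      Nonempty (G ≃+ (∀ i, ZMod (n i))) := by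
  classical
  obtain ⟨ι, hι, n, hn, ⟨e⟩⟩ := AddCommGroup.equiv_directSum_zmod_of_finite' G
  exact ⟨ι, hι, n, hn, ⟨e.trans (DirectSum.addEquivProd _)⟩⟩

theorem four (G : Type*) [AddCommGroup G] [Finite G]
    (h : ∀ g : G, g + g = 0 ↔ ∃ k, g = k + k) :
    ∃ r : ℕ, Nonempty (G ≃+ (Fin r → ZMod 4)) := by
  classical
  obtain ⟨ι, hι, n, hn, ⟨e⟩⟩ := exists_pi G
  have h' : ∀ g : (∀ i, ZMod (n i)), g + g = 0 ↔ ∃ k, g = k + k := by
    intro g
    have h1 := h (e.symm g)
    constructor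
    · intro hg
      have h2 : e.symm g + e.symm g = 0 := by rw [← map_add, hg, map_zero]
      obtain ⟨k, hk⟩ := h1.mp h2
      refine ⟨e k, ?_⟩
      rw [← map_add, ← hk, e.apply_symm_apply]
    · rintro ⟨k, rfl⟩
      have h2 := h1.mpr ⟨e.symm k, by rw [← map_add]⟩
      have h3 := congrArg e h2
      simpa using h3
  have h4 : ∀ i, n i = 4 := by
    intro i
    have h5 := (h' (Pi.single i 1 + Pi.single i 1)).mpr ⟨_, rfl⟩
    have h6 := congrFun h5 i
    simp only [Pi.add_apply, Pi.single_eq_same, Pi.zero_apply] at h6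
    have h7 : ((4 : ℕ) : ZMod (n i)) = 0 := by
      rw [← h6]; norm_num
    rw [ZMod.natCast_eq_zero_iff] at h7
    have h8 : n i ≤ 4 := Nat.le_of_dvd (by norm_num) h7
    have h9 := hn i
    have h10 : n i ≠ 3 := by
      intro hh; rw [hh] at h7; omega
    by_contra hne
    have h11 : n i = 2 := by omega
    have h12 : (Pi.single i 1 + Pi.single i 1 : ∀ i, ZMod (n i)) = 0 := by
      rw [← Pi.single_add]
      have : (1 + 1 : ZMod (n i)) = 0 := by
        have : ((2 : ℕ) : ZMod (n i)) = 0 := by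
          rw [ZMod.natCast_eq_zero_iff, h11]
        rw [← this]; norm_num
      rw [this, Pi.single_zero]
    obtain ⟨k, hk⟩ := (h' _).mp h12
    have h13 := congrFun hk i
    simp only [Pi.single_eq_same, Pi.add_apply] at h13
    have h14 : k i + k i = 0 := by
      have : ((2 : ℕ) : ZMod (n i)) = 0 := by
        rw [ZMod.natCast_eq_zero_iff, h11]
      have h15 : k i + k i = ((2 : ℕ) : ZMod (n i)) * k i := by push_cast; ring
      rw [h15, this, zero_mul]
    rw [h14] at h13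
    have h16 : ((1 : ℕ) : ZMod (n i)) = 0 := by simpa using h13
    rw [ZMod.natCast_eq_zero_iff, h11] at h16
    omega
  obtain ⟨e2⟩ := pi_const_equiv ι 4
  exact ⟨Fintype.card ι, ⟨(e.trans (AddEquiv.piCongrRight
    (fun i => (ZMod.ringEquivCongr (h4 i)).toAddEquiv))).trans e2⟩⟩

theorem two (G : Type*) [AddCommGroup G] [Finite G] (h : ∀ g : G, g + g = 0) :
    ∃ r : ℕ, Nonempty (G ≃+ (Fin r → ZMod 2)) := by
  classical
  obtain ⟨ι, hι, n, hn, ⟨e⟩⟩ := exists_pi G
  have h2 : ∀ i, n i = 2 := by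
    intro i
    have h5 := congrArg e (h (e.symm (Pi.single i 1)))
    have h6 := congrFun h5 i
    simp only [map_add, AddEquiv.apply_symm_apply, Pi.add_apply, Pi.single_eq_same, map_zero,
      Pi.zero_apply] at h6
    have h7 : ((2 : ℕ) : ZMod (n i)) = 0 := by
      rw [← h6]; norm_num
    rw [ZMod.natCast_eq_zero_iff] at h7
    have h8 : n i ≤ 2 := Nat.le_of_dvd (by norm_num) h7
    have h9 := hn i
    omega
  obtain ⟨e2⟩ := pi_const_equiv ι 2
  exact ⟨Fintype.card ι, ⟨(e.trans (AddEquiv.piCongrRight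
    (fun i => (ZMod.ringEquivCongr (h2 i)).toAddEquiv))).trans e2⟩⟩

theorem eq_zero_of_odd {K : Type*} [AddCommGroup K] [Finite K] (hodd : Odd (Nat.card K)) {k : K}
    (hk : k + k = 0) : k = 0 := by
  have h1 : addOrderOf k ∣ 2 := by
    rw [addOrderOf_dvd_iff_nsmul_eq_zero, two_nsmul]; exact hk
  have h2 : addOrderOf k ∣ Nat.card K := addOrderOf_dvd_natCard k
  have h3 : addOrderOf k ∣ 1 := by
    have h4 : Nat.Coprime 2 (Nat.card K) := (Nat.coprime_two_left).mpr hodd
    rw [← h4.gcd_eq_one]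
    exact Nat.dvd_gcd h1 h2
  rw [Nat.dvd_one] at h3
  exact AddMonoid.addOrderOf_eq_one_iff.mp h3

/-- If `|2G|` is odd then `G = G[2] x 2G`. -/
theorem decomp (G : Type*) [AddCommGroup G] [Finite G] (hodd : Odd (Nat.card (dbl G).range)) :
    Nonempty (((dbl G).ker × (dbl G).range) ≃+ G) := by
  let φ : ((dbl G).ker × (dbl G).range) →+ G :=
    AddMonoidHom.coprod (dbl G).ker.subtype (dbl G).range.subtype
  have hφ : ∀ p, φ p = p.1.1 + p.2.1 := fun p => rfl
  have hinj : Function.Injective φ := by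
    rw [injective_iff_map_eq_zero]
    rintro ⟨⟨a, ha⟩, ⟨b, hb⟩⟩ h
    rw [hφ] at h
    simp only at h
    have ha' : a + a = 0 := by simpa [AddMonoidHom.mem_ker] using ha
    have hb' : b + b = 0 := by
      have : b = -a := by rw [eq_neg_iff_add_eq_zero, add_comm]; exact h
      rw [this, ← neg_add, ha', neg_zero]
    have h3 : (⟨b, hb⟩ : (dbl G).range) = 0 := eq_zero_of_odd hodd (Subtype.ext hb')
    have h4 : b = 0 := congrArg Subtype.val h3
    subst h4
    rw [add_zero] at h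
    subst h
    rfl
  have hcard : Nat.card ((dbl G).ker × (dbl G).range) = Nat.card G := by
    rw [Nat.card_prod, ← invol_eq, card_mul]
  have hbij : Function.Bijective φ := by
    rw [Nat.bijective_iff_injective_and_card]
    exact ⟨hinj, hcard⟩
  exact ⟨AddEquiv.ofBijective φ hbij⟩

theorem decomp' (G : Type*) [AddCommGroup G] [Finite G] (hodd : Odd (Nat.card (dbl G).range)) :
    ∃ r : ℕ, invol G = 2 ^ r ∧ Nonempty (G ≃+ ((Fin r → ZMod 2) × (dbl G).range)) := by
  obtain ⟨e⟩ := decomp G hodd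
  obtain ⟨r, ⟨e2⟩⟩ := two (dbl G).ker (by
    rintro ⟨a, ha⟩
    have ha' : a + a = 0 := by simpa [AddMonoidHom.mem_ker] using ha
    exact Subtype.ext ha')
  refine ⟨r, ?_, ⟨e.symm.trans (AddEquiv.prodCongr e2 (AddEquiv.refl _))⟩⟩
  rw [invol_eq, Nat.card_congr e2.toEquiv]
  simp

theorem card_pi (r n : ℕ) [NeZero n] : Nat.card (Fin r → ZMod n) = n ^ r := by
  simp

end Pool.Agent.Helper27_Sid
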